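import Mathlib

/-! Counting points of the varieties `𝒰(σⁿ)` and `𝒵(σⁿ)` for `SL₂` over a finite field. -/

namespace Pool.Agent.CurLef

open scoped LinearAlgebra.Projectivization

section chains

variable {P : Type*}

/-- A chain `B 0, ..., B n` in which consecutive terms are different. -/
def IsChainOf (n : ℕ) (B : Fin (n + 1) → P) : Prop := ∀ i : Fin n, B i.castSucc ≠ B i.succ

theorem isChainOf_cons (n : ℕ) (x : P) (B : Fin (n + 1) → P) :
    IsChainOf (n + 1) (Fin.cons x B : Fin (n + 2) → P) ↔ x ≠ B 0 ∧ IsChainOf n B := by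
  unfold IsChainOf
  rw [Fin.forall_fin_succ]
  simp only [← Fin.succ_castSucc, Fin.cons_succ, Fin.castSucc_zero, Fin.cons_zero]

variable [Fintype P] [DecidableEq P]

open Classical in
/-- the number of chains with given ends -/
noncomputable def numChain (n : ℕ) (x y : P) : ℕ :=
  Fintype.card {B : Fin (n + 1) → P // IsChainOf n B ∧ B 0 = x ∧ B (Fin.last n) = y}

theorem numChain_zero (x y : P) : numChain 0 x y = if x = y then 1 else 0 := by
  classical
  unfold numChain
  split_ifs with h
  · subst h
    rw [Fintype.card_eq_one_iff]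
    refine ⟨⟨fun _ => x, fun i => i.elim0, rfl, rfl⟩, ?_⟩
    rintro ⟨B, -, h0, -⟩
    apply Subtype.ext
    funext i
    have : i = 0 := Fin.fin_one_eq_zero i
    subst this
    exact h0
  · rw [Fintype.card_eq_zero_iff]
    refine ⟨?_⟩
    rintro ⟨B, -, h0, h1⟩
    exact h (h0.symm.trans h1)

theorem numChain_succ (n : ℕ) (x y : P) :
    numChain (n + 1) x y = ∑ z : P, if x ≠ z then numChain n z y else 0 := by
  classical
  unfold numChain
  have e : {B : Fin (n + 1 + 1) → P // IsChainOf (n + 1) B ∧ B 0 = x ∧ B (Fin.last (n + 1)) = y} ≃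
      Σ z : P, {B : Fin (n + 1) → P // x ≠ z ∧ IsChainOf n B ∧ B 0 = z ∧ B (Fin.last n) = y} :=
    { toFun := fun B => ⟨B.1 1, ⟨Fin.tail B.1, by
        obtain ⟨B, h1, h2, h3⟩ := B
        have hc : B = Fin.cons (B 0) (Fin.tail B) := (Fin.cons_self_tail B).symm
        rw [hc, isChainOf_cons] at h1
        refine ⟨?_, h1.2, rfl, ?_⟩
        · exact fun h => h1.1 (h2.trans h)
        · simpa [Fin.tail] using h3⟩⟩
      invFun := fun z => ⟨Fin.cons x z.2.1, by
        obtain ⟨z, B, h1, h2, h3, h4⟩ := z
        refine ⟨(isChainOf_cons n x B).2 ⟨by rw [h3]; exact h1, h2⟩, rfl, ?_⟩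
        rw [← Fin.succ_last, Fin.cons_succ]
        exact h4⟩
      left_inv := by
        rintro ⟨B, h1, h2, h3⟩
        apply Subtype.ext
        simp only
        rw [← h2]
        exact Fin.cons_self_tail B
      right_inv := by
        rintro ⟨z, B, h1, h2, rfl, h4⟩
        rfl }
  rw [Fintype.card_congr e, Fintype.card_sigma]
  refine Finset.sum_congr rfl fun z _ => ?_
  split_ifs with h
  · apply Fintype.card_congr
    exact Equiv.subtypeEquivRight fun B => by tauto
  · rw [Fintype.card_eq_zero_iff]
    exact ⟨fun B => h B.2.1⟩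

/-- closed-walk and open-walk counts -/
def walk (q : ℤ) : ℕ → ℤ × ℤ
  | 0 => (1, 0)
  | n + 1 => (q * (walk q n).2, (walk q n).1 + (q - 1) * (walk q n).2)

theorem numChain_eq {q : ℕ} (hq : Fintype.card P = q + 1) (n : ℕ) (x y : P) :
    (numChain n x y : ℤ) = if x = y then (walk q n).1 else (walk q n).2 := by
  induction n generalizing x y with
  | zero => rw [numChain_zero]; simp [walk]
  | succ n ih =>
    rw [numChain_succ]
    push_cast
    have h1 : ∀ z : P, ((if x ≠ z then (numChain n z y : ℤ) else 0) : ℤ) =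
        (walk q n).2 + (if z = y then (walk q n).1 - (walk q n).2 else 0) -
        (if z = x then (if x = y then (walk q n).1 else (walk q n).2) else 0) := by
      intro z
      rw [ih]
      by_cases h1 : x = z
      · subst h1
        by_cases h2 : x = y <;> simp [h2]
      · have h1' : ¬ z = x := fun h => h1 h.symm
        by_cases h2 : z = y
        · rw [if_pos h1, if_pos h2, if_pos h2, if_neg h1']; ring
        · rw [if_pos h1, if_neg h2, if_neg h2, if_neg h1']; ring
    have h2 : (∑ z : P, ((if x ≠ z then (numChain n z y : ℤ) else 0) : ℤ)) =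
        (q + 1) * (walk q n).2 + ((walk q n).1 - (walk q n).2) -
        (if x = y then (walk q n).1 else (walk q n).2) := by
      rw [Finset.sum_congr rfl fun z _ => h1 z]
      rw [Finset.sum_sub_distrib, Finset.sum_add_distrib]
      simp [hq]
    have h3 : (∑ z : P, ((if x ≠ z then numChain n z y else 0 : ℕ) : ℤ)) =
        (∑ z : P, ((if x ≠ z then (numChain n z y : ℤ) else 0) : ℤ)) := by
      refine Finset.sum_congr rfl fun z _ => ?_
      split_ifs <;> simp
    simp only [walk]
    rw [show (∑ z : P, (if x ≠ z then (numChain n z y : ℤ) else 0)) = _ from h2]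
    split_ifs <;> ring

theorem walk_formula (q : ℤ) (n : ℕ) :
    (walk q n).1 + q * (walk q n).2 = q ^ n ∧ (walk q n).1 - (walk q n).2 = (-1) ^ n := by
  induction n with
  | zero => simp [walk]
  | succ n ih =>
    obtain ⟨h1, h2⟩ := ih
    simp only [walk]
    constructor
    · rw [pow_succ, ← h1]; ring
    · rw [pow_succ, ← h2]; ring

end chains

end Pool.Agent.CurLef
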