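import Mathlib

/-! The varieties `𝒰(β)` and `𝒵(β)` of `SL₂` and Frobenius modules. -/

namespace Pool.Agent.CurLef

open scoped LinearAlgebra.Projectivization

/-- The `K`-points of the flag variety `𝓑` of `SL₂`: the Borel subgroups of `SL₂` over `K` are the
stabilisers of the lines in `K²`, so the flag variety is the projective line. -/
abbrev Flag (K : Type) [Field K] : Type := ℙ K (Fin 2 → K)

/-- The element `u` of `SL₂(K)` is unipotent, i.e. it is a `K`-point of `𝒰`. -/
def IsUnipotent {K : Type} [Field K] (u : Matrix.SpecialLinearGroup (Fin 2) K) : Prop :=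
  IsNilpotent ((u : Matrix (Fin 2) (Fin 2) K) - 1)

/-- The `K`-points of `𝒰(σⁿ)` for the group `SL₂`: a unipotent `u` and a tuple `(B₀, …, Bₙ)` with
`(Bᵢ₋₁, Bᵢ)` in the relative position of the nontrivial element of the Weyl group (that is
`Bᵢ₋₁ ≠ Bᵢ`) and `Bₙ = u B₀ u⁻¹`. -/
def UPoints (n : ℕ) (K : Type) [Field K] : Type :=
  {x : Matrix.SpecialLinearGroup (Fin 2) K × (Fin (n + 1) → Flag K) //
    IsUnipotent x.1 ∧ (∀ i : Fin n, x.2 i.castSucc ≠ x.2 i.succ) ∧ x.1 • x.2 0 = x.2 (Fin.last n)}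

/-- The `K`-points of `𝒵(σⁿ) = 𝒰(1) ×_𝒰 𝒰(σⁿ)` for the group `SL₂`: a `K`-point
`(u, B₀, …, Bₙ)` of `𝒰(σⁿ)` and a Borel subgroup `B` with `u B u⁻¹ = B`. -/
def ZPoints (n : ℕ) (K : Type) [Field K] : Type :=
  {x : Flag K × UPoints n K // x.2.1.1 • x.1 = x.1}

/-- A finite dimensional graded vector space `⊕ Hⁱ` over `E` with an endomorphism of degree `0`. -/
structure GradedFrob (E : Type) [Field E] where
  /-- the graded pieces -/
  H : ℤ → Type
  [grp : ∀ i, AddCommGroup (H i)]
  [mod : ∀ i, Module E (H i)]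
  [fin : ∀ i, FiniteDimensional E (H i)]
  /-- only finitely many of them are nonzero -/
  bdd : {i | Nontrivial (H i)}.Finite
  /-- the endomorphism (the geometric Frobenius) -/
  Fr : ∀ i, H i →ₗ[E] H i

attribute [instance] GradedFrob.grp GradedFrob.mod GradedFrob.fin

namespace GradedFrob

variable {E : Type} [Field E] (M : GradedFrob E)

/-- Grothendieck's trace formula: for every finite extension `K` of the finite field `F`, the number
of `K`-points is the alternating sum of the traces of the `[K : F]`-th power of Frobenius. -/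
def TraceFormula (F : Type) [Field F] (X : ∀ (K : Type) [Field K], Type) : Prop :=
  ∀ (K : Type) [Field K] [Finite K] [Algebra F K],
    (Nat.card (X K) : E) =
      ∑ᶠ i : ℤ, ((Int.negOnePow i : ℤˣ) : ℤ) *
        LinearMap.trace E (M.H i) (M.Fr i ^ Module.finrank F K)

/-- The part `gr_w Hⁱ` of weight `w`: the sum of the generalised eigenspaces of Frobenius for the
eigenvalues `α` with `|ι α| = q ^ (w / 2)`. -/
def gr (ι : E →+* ℂ) (q : ℕ) (w : ℤ) (i : ℤ) : Submodule E (M.H i) :=
  ⨆ α : E, ⨆ _ : ‖ι α‖ = (q : ℝ) ^ ((w : ℝ) / 2), Module.End.maxGenEigenspace (M.Fr i) α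

/-- The numerical content of the curious Lefschetz property centred at weight `d`: for all `i` and
all `k ≥ 0` the spaces `gr_{d-2k} Hⁱ` and `gr_{d+2k} H^{i+2k}` are isomorphic. -/
def LefschetzSymmetric (ι : E →+* ℂ) (q : ℕ) (d : ℤ) : Prop :=
  ∀ (i : ℤ) (k : ℕ), Nonempty (M.gr ι q (d - 2 * k) i ≃ₗ[E] M.gr ι q (d + 2 * k) (i + 2 * k))

end GradedFrob

end Pool.Agent.CurLef
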