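import Mathlib
import Pool.Agent.CurLef.Count
import Pool.Agent.CurLef.Defs

/-! Counting unipotent elements and their fixed lines. -/

namespace Pool.Agent.CurLef

open scoped LinearAlgebra.Projectivization MatrixGroups
open Matrix

variable {K : Type} [Field K]

/-- for a two by two matrix, nilpotent means trace and determinant zero -/
theorem isNilpotent_iff (N : Matrix (Fin 2) (Fin 2) K) :
    IsNilpotent N ↔ N.trace = 0 ∧ N.det = 0 := by
  constructor
  · intro h
    have h1 : IsNilpotent N.trace := Matrix.isNilpotent_trace_of_isNilpotent h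
    refine ⟨h1.eq_zero, ?_⟩
    obtain ⟨k, hk⟩ := h
    have : IsNilpotent N.det := ⟨k, by rw [← Matrix.det_pow, hk, Matrix.det_zero]⟩
    exact this.eq_zero
  · rintro ⟨h1, h2⟩
    refine ⟨2, ?_⟩
    rw [Matrix.trace_fin_two] at h1
    rw [Matrix.det_fin_two] at h2
    have h3 : N 1 1 = - N 0 0 := by linear_combination h1
    rw [pow_two]
    ext i j
    rw [Matrix.mul_apply, Fin.sum_univ_two]
    fin_cases i <;> fin_cases j
    · simp
      linear_combination (-1 : K) * h2 + N 0 0 * h3
    · simp
      rw [h3]; ring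
    · simp
      rw [h3]; ring
    · simp
      linear_combination (-1 : K) * h2 + N 1 1 * h3

theorem isUnipotent_iff (u : SL(2, K)) :
    IsUnipotent u ↔ (u : Matrix (Fin 2) (Fin 2) K) 0 0 + (u : Matrix (Fin 2) (Fin 2) K) 1 1 = 2 := by
  unfold IsUnipotent
  rw [isNilpotent_iff, Matrix.trace_fin_two, Matrix.det_fin_two]
  have hd := u.2
  rw [Matrix.det_fin_two] at hd
  simp only [Matrix.sub_apply, Matrix.one_apply_eq, ne_eq, zero_ne_one, not_false_eq_true,
    Matrix.one_apply_ne, sub_zero, one_ne_zero]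
  constructor
  · rintro ⟨h, -⟩
    linear_combination h
  · intro h
    refine ⟨by linear_combination h, ?_⟩
    have : (u : Matrix (Fin 2) (Fin 2) K) 0 0 * (u : Matrix (Fin 2) (Fin 2) K) 1 1 -
      (u : Matrix (Fin 2) (Fin 2) K) 0 1 * (u : Matrix (Fin 2) (Fin 2) K) 1 0 = 1 := hd
    linear_combination this - h

/-- a unipotent element fixes the line through `v` iff it fixes `v` -/
theorem smul_mk_eq_iff (u : SL(2, K)) (hu : IsUnipotent u) (v : Fin 2 → K) (hv : v ≠ 0) :
    u • Projectivization.mk K v hv = Projectivization.mk K v hv ↔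
      (u : Matrix (Fin 2) (Fin 2) K) *ᵥ v = v := by
  have hsm : u • v = (u : Matrix (Fin 2) (Fin 2) K) *ᵥ v := rfl
  rw [Projectivization.smul_mk, Projectivization.mk_eq_mk_iff']
  constructor
  · rintro ⟨a, ha⟩
    rw [hsm] at ha
    have hd := u.2
    rw [isUnipotent_iff] at hu
    rw [Matrix.det_fin_two] at hd
    have e0 : a * v 0 = (u : Matrix (Fin 2) (Fin 2) K) 0 0 * v 0 +
        (u : Matrix (Fin 2) (Fin 2) K) 0 1 * v 1 := by
      have := congrFun ha 0
      simpa [Matrix.mulVec, dotProduct, Fin.sum_univ_two] using this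
    have e1 : a * v 1 = (u : Matrix (Fin 2) (Fin 2) K) 1 0 * v 0 +
        (u : Matrix (Fin 2) (Fin 2) K) 1 1 * v 1 := by
      have := congrFun ha 1
      simpa [Matrix.mulVec, dotProduct, Fin.sum_univ_two] using this
    have h0 : (a - 1) ^ 2 * v 0 = 0 := by
      linear_combination (a - (u : Matrix (Fin 2) (Fin 2) K) 1 1) * e0 +
        (u : Matrix (Fin 2) (Fin 2) K) 0 1 * e1 - v 0 * hd + a * v 0 * hu
    have h1 : (a - 1) ^ 2 * v 1 = 0 := by
      linear_combination (a - (u : Matrix (Fin 2) (Fin 2) K) 0 0) * e1 +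
        (u : Matrix (Fin 2) (Fin 2) K) 1 0 * e0 - v 1 * hd + a * v 1 * hu
    have ha1 : a = 1 := by
      by_contra hne
      have hne' : (a - 1) ^ 2 ≠ 0 := pow_ne_zero _ (sub_ne_zero.2 hne)
      apply hv
      funext i
      fin_cases i
      · exact (mul_eq_zero.1 h0).resolve_left hne'
      · exact (mul_eq_zero.1 h1).resolve_left hne'
    rw [ha1, one_smul] at ha
    exact ha.symm
  · intro h
    exact ⟨1, by rw [hsm, h, one_smul]⟩

theorem mk_eq_of_det {v w : Fin 2 → K} (hv : v ≠ 0) (hw : w ≠ 0) (h : v 0 * w 1 - v 1 * w 0 = 0) :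
    Projectivization.mk K v hv = Projectivization.mk K w hw := by
  rw [Projectivization.mk_eq_mk_iff']
  by_cases h0 : w 0 = 0
  · have h1 : w 1 ≠ 0 := by
      intro h1
      apply hw
      funext i
      fin_cases i
      · exact h0
      · exact h1
    refine ⟨v 1 / w 1, ?_⟩
    funext i
    fin_cases i
    · have : v 0 = 0 := by
        have : v 0 * w 1 = 0 := by rw [h0] at h; linear_combination h
        exact (mul_eq_zero.1 this).resolve_right h1
      simp [h0, this]
    · simp [h1]
  · refine ⟨v 0 / w 0, ?_⟩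
    funext i
    fin_cases i
    · simp [h0]
    · simp only [Fin.mk_one, Pi.smul_apply, smul_eq_mul]
      field_simp
      linear_combination h

/-- a nontrivial unipotent element fixes exactly one line -/
theorem existsUnique_fixed (u : SL(2, K)) (hu : IsUnipotent u) (hu1 : u ≠ 1) :
    ∃! L : Flag K, u • L = L := by
  have hN : ((u : Matrix (Fin 2) (Fin 2) K) - 1).det = 0 := ((isNilpotent_iff _).1 hu).2
  obtain ⟨v, hv, hv2⟩ := Matrix.exists_mulVec_eq_zero_iff.2 hN
  rw [Matrix.sub_mulVec, Matrix.one_mulVec, sub_eq_zero] at hv2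
  refine ⟨Projectivization.mk K v hv, (smul_mk_eq_iff u hu v hv).2 hv2, ?_⟩
  intro L hL
  induction L using Projectivization.ind with | _ w hw =>
  rw [smul_mk_eq_iff u hu w hw] at hL
  by_contra hne
  have hdet : w 0 * v 1 - w 1 * v 0 ≠ 0 := fun h => hne (mk_eq_of_det hw hv h)
  apply hu1
  have hP : (u : Matrix (Fin 2) (Fin 2) K) * !![w 0, v 0; w 1, v 1] = !![w 0, v 0; w 1, v 1] := by
    ext i j
    have h1 := congrFun hL i
    have h2 := congrFun hv2 i
    simp only [Matrix.mulVec, dotProduct, Fin.sum_univ_two] at h1 h2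
    rw [Matrix.mul_apply, Fin.sum_univ_two]
    fin_cases i <;> fin_cases j <;> simpa using by first | exact h1 | exact h2
  have hPd : IsUnit (!![w 0, v 0; w 1, v 1] : Matrix (Fin 2) (Fin 2) K).det := by
    rw [Matrix.det_fin_two]
    simp only [of_apply, cons_val', cons_val_zero, cons_val_one, empty_val', cons_val_fin_one]
    refine IsUnit.mk0 _ ?_
    intro h
    apply hdet
    linear_combination h
  apply Subtype.ext
  have := congrArg (· * (!![w 0, v 0; w 1, v 1] : Matrix (Fin 2) (Fin 2) K)⁻¹) hP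
  simp only [Matrix.mul_assoc, Matrix.mul_nonsing_inv _ hPd, Matrix.mul_one] at this
  rw [this]
  rfl

/-- the unipotent elements that fix the line through `v` -/
def unip (v : Fin 2 → K) (t : K) : SL(2, K) :=
  ⟨!![1 - t * v 0 * v 1, t * v 0 ^ 2; - t * v 1 ^ 2, 1 + t * v 0 * v 1], by
    rw [Matrix.det_fin_two]; simp; ring⟩

theorem unip_isUnipotent (v : Fin 2 → K) (t : K) : IsUnipotent (unip v t) := by
  rw [isUnipotent_iff]
  simp [unip]
  ring

theorem unip_fix (v : Fin 2 → K) (t : K) :
    (unip v t : Matrix (Fin 2) (Fin 2) K) *ᵥ v = v := by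
  funext i
  fin_cases i
  · simp [unip, Matrix.mulVec, dotProduct, Fin.sum_univ_two]; ring
  · simp [unip, Matrix.mulVec, dotProduct, Fin.sum_univ_two]; ring

theorem unip_surj (v : Fin 2 → K) (hv : v ≠ 0) (u : SL(2, K)) (hu : IsUnipotent u)
    (h : (u : Matrix (Fin 2) (Fin 2) K) *ᵥ v = v) : ∃ t, unip v t = u := by
  rw [isUnipotent_iff] at hu
  have e0 : (u : Matrix (Fin 2) (Fin 2) K) 0 0 * v 0 +
      (u : Matrix (Fin 2) (Fin 2) K) 0 1 * v 1 = v 0 := by
    have := congrFun h 0
    simpa [Matrix.mulVec, dotProduct, Fin.sum_univ_two] using this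
  have e1 : (u : Matrix (Fin 2) (Fin 2) K) 1 0 * v 0 +
      (u : Matrix (Fin 2) (Fin 2) K) 1 1 * v 1 = v 1 := by
    have := congrFun h 1
    simpa [Matrix.mulVec, dotProduct, Fin.sum_univ_two] using this
  set a := (u : Matrix (Fin 2) (Fin 2) K) 0 0 with ha
  set b := (u : Matrix (Fin 2) (Fin 2) K) 0 1 with hb
  set c := (u : Matrix (Fin 2) (Fin 2) K) 1 0 with hc
  set d := (u : Matrix (Fin 2) (Fin 2) K) 1 1 with hd
  have hd' : d = 2 - a := by linear_combination hu
  have key : ∃ t, 1 - t * v 0 * v 1 = a ∧ t * v 0 ^ 2 = b ∧ - t * v 1 ^ 2 = c := by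
    by_cases h0 : v 0 = 0
    · have h1 : v 1 ≠ 0 := by
        intro h1
        apply hv
        funext i
        fin_cases i
        · exact h0
        · exact h1
      have hb0 : b = 0 := by
        rw [h0] at e0
        have : b * v 1 = 0 := by linear_combination e0
        exact (mul_eq_zero.1 this).resolve_right h1
      have hd1 : d = 1 := by
        rw [h0] at e1
        have : (d - 1) * v 1 = 0 := by linear_combination e1
        exact sub_eq_zero.1 ((mul_eq_zero.1 this).resolve_right h1)
      refine ⟨- c / v 1 ^ 2, ?_, ?_, ?_⟩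
      · rw [h0]; linear_combination hd1 - hd'
      · rw [h0, hb0]; ring
      · field_simp
    · refine ⟨b / v 0 ^ 2, ?_, ?_, ?_⟩
      · field_simp
        linear_combination - e0
      · field_simp
      · have hav : (1 - a) * v 0 = b * v 1 := by linear_combination - e0
        have hcv : c * v 0 = (a - 1) * v 1 := by rw [hd'] at e1; linear_combination e1
        have : c * v 0 ^ 2 = - b * v 1 ^ 2 := by
          linear_combination v 0 * hcv - v 1 * hav
        field_simp
        linear_combination - this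
  obtain ⟨t, h1, h2, h3⟩ := key
  refine ⟨t, ?_⟩
  apply Subtype.ext
  ext i j
  fin_cases i <;> fin_cases j
  · simpa [unip] using h1
  · simpa [unip] using h2
  · simpa [unip] using h3
  · have : 1 + t * v 0 * v 1 = d := by rw [hd']; linear_combination - h1
    simpa [unip] using this

theorem unip_inj (v : Fin 2 → K) (hv : v ≠ 0) : Function.Injective (unip v) := by
  intro s t h
  have h1 : s * v 0 ^ 2 = t * v 0 ^ 2 := by
    have := congrArg (fun u : SL(2, K) => (u : Matrix (Fin 2) (Fin 2) K) 0 1) h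
    simpa [unip] using this
  have h2 : s * v 1 ^ 2 = t * v 1 ^ 2 := by
    have := congrArg (fun u : SL(2, K) => (u : Matrix (Fin 2) (Fin 2) K) 1 0) h
    simpa [unip] using this
  by_cases h0 : v 0 = 0
  · have h1' : v 1 ≠ 0 := by
      intro h1'
      apply hv
      funext i
      fin_cases i
      · exact h0
      · exact h1'
    exact mul_right_cancel₀ (pow_ne_zero 2 h1') h2
  · exact mul_right_cancel₀ (pow_ne_zero 2 h0) h1

/-- exactly `q` unipotent elements fix a given line -/
theorem card_fixing (L : Flag K) :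
    Nat.card {u : SL(2, K) // IsUnipotent u ∧ u • L = L} = Nat.card K := by
  induction L using Projectivization.ind with | _ v hv =>
  symm
  apply Nat.card_congr
  refine Equiv.ofBijective (fun t => ⟨unip v t, unip_isUnipotent v t,
    (smul_mk_eq_iff _ (unip_isUnipotent v t) v hv).2 (unip_fix v t)⟩) ⟨?_, ?_⟩
  · intro s t h
    exact unip_inj v hv (congrArg Subtype.val h)
  · rintro ⟨u, hu, hL⟩
    obtain ⟨t, ht⟩ := unip_surj v hv u hu ((smul_mk_eq_iff u hu v hv).1 hL)
    exact ⟨t, Subtype.ext ht⟩


section count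

variable (K) [Finite K]

noncomputable local instance : Fintype K := Fintype.ofFinite K
noncomputable local instance : Fintype (Flag K) := Fintype.ofFinite _
noncomputable local instance : Fintype SL(2, K) := Fintype.ofFinite _
noncomputable local instance : DecidableEq (Flag K) := Classical.decEq _

open Classical in
/-- the number of lines fixed by `u` -/
noncomputable def fixNum (u : SL(2, K)) : ℤ := (Finset.univ.filter fun L : Flag K => u • L = L).card

open Classical in
/-- the unipotent elements -/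
noncomputable def unipSet : Finset SL(2, K) := Finset.univ.filter IsUnipotent

theorem card_flag : Fintype.card (Flag K) = Nat.card K + 1 := by
  rw [← Nat.card_eq_fintype_card]
  exact Projectivization.card_of_finrank_two K (Fin 2 → K) (by simp)

theorem fixNum_one : fixNum K 1 = Nat.card K + 1 := by
  classical
  unfold fixNum
  have : (Finset.univ.filter fun L : Flag K => (1 : SL(2, K)) • L = L) = Finset.univ := by
    ext L; simp
  rw [this, Finset.card_univ, card_flag]
  push_cast; ring

theorem fixNum_of_ne {u : SL(2, K)} (hu : IsUnipotent u) (h1 : u ≠ 1) : fixNum K u = 1 := by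
  classical
  unfold fixNum
  obtain ⟨L, hL, hL2⟩ := existsUnique_fixed u hu h1
  have : (Finset.univ.filter fun L : Flag K => u • L = L) = {L} := by
    ext M
    simp only [Finset.mem_filter, Finset.mem_univ, true_and, Finset.mem_singleton]
    exact ⟨fun h => hL2 M h, fun h => h ▸ hL⟩
  rw [this]; simp

theorem one_mem_unipSet : (1 : SL(2, K)) ∈ unipSet K := by
  unfold unipSet
  simp only [Finset.mem_filter, Finset.mem_univ, true_and]
  unfold IsUnipotent
  simp

theorem sum_unip (g : ℤ → ℤ) :
    ∑ u ∈ unipSet K, g (fixNum K u) =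
      g (Nat.card K + 1) + (((unipSet K).card : ℤ) - 1) * g 1 := by
  classical
  rw [← Finset.add_sum_erase _ _ (one_mem_unipSet K), fixNum_one]
  congr 1
  rw [Finset.sum_congr rfl (g := fun _ => g 1)]
  · rw [Finset.sum_const, Finset.card_erase_of_mem (one_mem_unipSet K), nsmul_eq_mul]
    rw [Nat.cast_sub (Finset.card_pos.2 ⟨_, one_mem_unipSet K⟩)]
    simp
  · intro u hu
    rw [Finset.mem_erase] at hu
    rw [fixNum_of_ne K (by simpa [unipSet] using hu.2) hu.1]

theorem sum_fixNum : ∑ u ∈ unipSet K, fixNum K u = (Nat.card K + 1) * Nat.card K := by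
  classical
  unfold fixNum
  have h1 : ∀ L : Flag K, ((unipSet K).filter fun u => u • L = L).card = Nat.card K := by
    intro L
    rw [← card_fixing L, Nat.card_eq_fintype_card, Fintype.card_subtype]
    congr 1
    ext u
    simp [unipSet]
  have h2 : ∑ u ∈ unipSet K, (Finset.univ.filter fun L : Flag K => u • L = L).card =
      ∑ L : Flag K, ((unipSet K).filter fun u => u • L = L).card := by
    simp only [Finset.card_filter]
    rw [Finset.sum_comm]
  rw [← Nat.cast_sum, h2, Finset.sum_congr rfl fun L _ => h1 L]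
  rw [Finset.sum_const, Finset.card_univ, card_flag]
  simp

theorem card_unipSet : ((unipSet K).card : ℤ) = (Nat.card K : ℤ) ^ 2 := by
  have h1 := sum_unip K (fun x => x)
  have h2 := sum_fixNum K
  rw [h2] at h1
  linear_combination -h1

/-- the number of chains from `x` to `u x`, summed over `x` -/
theorem sum_chain (u : SL(2, K)) (n : ℕ) :
    ∑ x : Flag K, (numChain n x (u • x) : ℤ) =
      fixNum K u * (walk (Nat.card K) n).1 +
        ((Nat.card K : ℤ) + 1 - fixNum K u) * (walk (Nat.card K) n).2 := by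
  classical
  have h1 : ∀ x : Flag K, (numChain n x (u • x) : ℤ) = (walk (Nat.card K) n).2 +
      (if u • x = x then ((walk (Nat.card K) n).1 - (walk (Nat.card K) n).2) else 0) := by
    intro x
    rw [numChain_eq (card_flag K)]
    by_cases h : u • x = x
    · rw [if_pos h.symm, if_pos h]; ring
    · rw [if_neg (fun h' => h h'.symm), if_neg h]; ring
  rw [Finset.sum_congr rfl fun x _ => h1 x, Finset.sum_add_distrib, ← Finset.sum_filter]
  rw [Finset.sum_const, Finset.sum_const, Finset.card_univ, card_flag]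
  unfold fixNum
  simp only [nsmul_eq_mul]
  push_cast
  ring

theorem card_UPoints (n : ℕ) :
    (Nat.card (UPoints n K) : ℤ) =
      (Nat.card K : ℤ) ^ (n + 2) + (-1) ^ n * Nat.card K := by
  classical
  have e : UPoints n K ≃ Σ u : {u : SL(2, K) // IsUnipotent u}, Σ x : Flag K,
      {B : Fin (n + 1) → Flag K // IsChainOf n B ∧ B 0 = x ∧ B (Fin.last n) = u.1 • x} :=
    { toFun := fun x => ⟨⟨x.1.1, x.2.1⟩, x.1.2 0, x.1.2, x.2.2.1, rfl, x.2.2.2.symm⟩
      invFun := fun x => ⟨(x.1.1, x.2.2.1), x.1.2, x.2.2.2.1, by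
        simp only
        rw [x.2.2.2.2.1, x.2.2.2.2.2]⟩
      left_inv := fun x => rfl
      right_inv := by
        rintro ⟨⟨u, hu⟩, x, B, h1, rfl, h3⟩
        rfl }
  have hcard : Nat.card (UPoints n K) = ∑ u ∈ unipSet K, ∑ x : Flag K, numChain n x (u • x) := by
    rw [Nat.card_congr e, Nat.card_eq_fintype_card, Fintype.card_sigma]
    unfold unipSet
    rw [Finset.sum_filter, ← Finset.sum_filter, ← Finset.sum_subtype_eq_sum_filter]
    refine Finset.sum_congr ?_ fun u _ => ?_
    · ext u; simp
    · rw [Fintype.card_sigma]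
      rfl
  rw [hcard]
  rw [Nat.cast_sum, Finset.sum_congr rfl fun u _ => by rw [Nat.cast_sum, sum_chain K u n]]
  rw [sum_unip K (fun x => x * (walk (Nat.card K) n).1 +
        ((Nat.card K : ℤ) + 1 - x) * (walk (Nat.card K) n).2), card_unipSet]
  obtain ⟨h1, h2⟩ := walk_formula (Nat.card K) n
  set q : ℤ := (Nat.card K : ℤ)
  set a := (walk q n).1
  set b := (walk q n).2
  have : q ^ (n + 2) = q ^ n * q ^ 2 := by ring
  rw [this, ← h1, ← h2]
  ring

theorem card_ZPoints (n : ℕ) :
    (Nat.card (ZPoints n K) : ℤ) =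
      (Nat.card K : ℤ) ^ (n + 2) + (Nat.card K : ℤ) ^ (n + 1) +
        (-1) ^ n * ((Nat.card K : ℤ) ^ 2 + Nat.card K) := by
  classical
  have e : ZPoints n K ≃ Σ u : {u : SL(2, K) // IsUnipotent u}, {L : Flag K // u.1 • L = L} ×
      Σ x : Flag K,
      {B : Fin (n + 1) → Flag K // IsChainOf n B ∧ B 0 = x ∧ B (Fin.last n) = u.1 • x} :=
    { toFun := fun x => ⟨⟨x.1.2.1.1, x.1.2.2.1⟩, ⟨x.1.1, x.2⟩,
        x.1.2.1.2 0, x.1.2.1.2, x.1.2.2.2.1, rfl, x.1.2.2.2.2.symm⟩
      invFun := fun x => ⟨(x.2.1.1, ⟨(x.1.1, x.2.2.2.1), x.1.2, x.2.2.2.2.1, by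
        simp only
        rw [x.2.2.2.2.2.1, x.2.2.2.2.2.2]⟩), x.2.1.2⟩
      left_inv := fun x => rfl
      right_inv := by
        rintro ⟨⟨u, hu⟩, ⟨L, hL⟩, x, B, h1, rfl, h3⟩
        rfl }
  have hcard : (Nat.card (ZPoints n K) : ℤ) =
      ∑ u ∈ unipSet K, fixNum K u * ∑ x : Flag K, (numChain n x (u • x) : ℤ) := by
    rw [Nat.card_congr e, Nat.card_eq_fintype_card, Fintype.card_sigma]
    push_cast
    unfold unipSet
    rw [← Finset.sum_subtype_eq_sum_filter]
    refine Finset.sum_congr ?_ fun u _ => ?_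
    · ext u; simp
    · rw [Fintype.card_prod, Fintype.card_sigma]
      push_cast
      congr 1
      unfold fixNum
      rw [Fintype.card_subtype]
  rw [hcard]
  rw [Finset.sum_congr rfl fun u _ => by rw [sum_chain K u n]]
  rw [sum_unip K (fun x => x * (x * (walk (Nat.card K) n).1 +
        ((Nat.card K : ℤ) + 1 - x) * (walk (Nat.card K) n).2)), card_unipSet]
  obtain ⟨h1, h2⟩ := walk_formula (Nat.card K) n
  set q : ℤ := (Nat.card K : ℤ)
  set a := (walk q n).1
  set b := (walk q n).2
  have : q ^ (n + 2) = q ^ n * q ^ 2 := by ring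
  have h3 : q ^ (n + 1) = q ^ n * q := by ring
  rw [this, h3, ← h1, ← h2]
  ring

end count

end Pool.Agent.CurLef
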