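import Mathlib
import Pool.Agent.CurLef.Defs

/-! Traces of powers and multiplicities of eigenvalues. -/

namespace Pool.Agent.CurLef

open Module

variable {E : Type} [Field E]

theorem trace_pow [IsAlgClosed E] {V : Type} [AddCommGroup V] [Module E V]
    [FiniteDimensional E V] (f : End E V) (m : ℕ) (S : Finset E)
    (hS : ∀ α, End.maxGenEigenspace f α ≠ ⊥ → α ∈ S) :
    LinearMap.trace E V (f ^ m) =
      ∑ α ∈ S, (Module.finrank E (End.maxGenEigenspace f α) : E) * α ^ m := by
  classical
  have hds := DirectSum.isInternal_submodule_of_iSupIndep_of_iSup_eq_top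
      f.independent_maxGenEigenspace (End.iSup_maxGenEigenspace_eq_top f)
  have h_fin : {μ | f.maxGenEigenspace μ ≠ ⊥}.Finite :=
      WellFoundedGT.finite_ne_bot_of_iSupIndep f.independent_maxGenEigenspace
  have hmap : ∀ α, Set.MapsTo (f ^ m) (f.maxGenEigenspace α) (f.maxGenEigenspace α) :=
    fun α => f.mapsTo_maxGenEigenspace_of_comm (Commute.pow_right (Commute.refl f) m) α
  rw [LinearMap.trace_eq_sum_trace_restrict' hds h_fin hmap]
  have hsub : h_fin.toFinset ⊆ S := fun α h => hS α (by simpa using h)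
  rw [← Finset.sum_subset hsub]
  · refine Finset.sum_congr rfl fun α _ => ?_
    -- on the generalised eigenspace
    have hmap1 : Set.MapsTo f (f.maxGenEigenspace α) (f.maxGenEigenspace α) :=
      f.mapsTo_maxGenEigenspace_of_comm (Commute.refl f) α
    set W := f.maxGenEigenspace α
    have hr : (f ^ m).restrict (hmap α) = (f.restrict hmap1) ^ m := by
      rw [Module.End.pow_restrict]
    rw [hr]
    set g : End E W := f.restrict hmap1
    have hnil : IsNilpotent (g - algebraMap E (End E W) α) :=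
      f.isNilpotent_restrict_maxGenEigenspace_sub_algebraMap α
    have h2 : IsNilpotent (g ^ m - algebraMap E (End E W) (α ^ m)) := by
      rw [map_pow]
      have hc : Commute g (algebraMap E (End E W) α) := (Algebra.commutes α g).symm
      obtain ⟨r, hr⟩ : ∃ r, g ^ m - (algebraMap E (End E W) α) ^ m =
          (g - algebraMap E (End E W) α) * r ∧ Commute (g - algebraMap E (End E W) α) r := by
        refine ⟨_, (hc.mul_geom_sum₂ m).symm, ?_⟩
        apply Commute.sum_right
        intro i _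
        apply Commute.mul_right
        · exact ((Commute.refl g).pow_right i).sub_left ((hc.symm).pow_right i)
        · exact (hc.pow_right _).sub_left ((Commute.refl _).pow_right _)
      rw [hr.1]
      exact hr.2.isNilpotent_mul_right hnil
    have h3 : LinearMap.trace E W (g ^ m - algebraMap E (End E W) (α ^ m)) = 0 :=
      (LinearMap.isNilpotent_trace_of_isNilpotent h2).eq_zero
    rw [map_sub, sub_eq_zero] at h3
    rw [h3, Algebra.algebraMap_eq_smul_one, map_smul, LinearMap.trace_one, smul_eq_mul]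
    ring
  · intro α _ h
    have : f.maxGenEigenspace α = ⊥ := by
      by_contra h'
      exact h (by simpa using h')
    rw [this]; simp

/-- power sums determine the coefficients -/
theorem coeff_eq_zero_of_power_sums (S : Finset E) (c : E → E)
    (h : ∀ m : ℕ, 1 ≤ m → ∑ α ∈ S, c α * α ^ m = 0) (α : E) (hα : α ∈ S) (h0 : α ≠ 0) :
    c α = 0 := by
  classical
  have hp : ∀ p : Polynomial E, ∑ β ∈ S, c β * (β * p.eval β) = 0 := by
    intro p
    have : ∀ β ∈ S, c β * (β * p.eval β) = ∑ k ∈ p.support, p.coeff k * (c β * β ^ (k + 1)) := by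
      intro β _
      rw [Polynomial.eval_eq_sum, Polynomial.sum_def, Finset.mul_sum, Finset.mul_sum]
      refine Finset.sum_congr rfl fun k _ => by ring
    rw [Finset.sum_congr rfl this, Finset.sum_comm]
    refine Finset.sum_eq_zero fun k _ => ?_
    rw [← Finset.mul_sum, h (k + 1) (by omega), mul_zero]
  have := hp (∏ β ∈ S.erase α, (Polynomial.X - Polynomial.C β))
  rw [← Finset.add_sum_erase _ _ hα] at this
  have h2 : ∑ β ∈ S.erase α, c β * (β * (∏ γ ∈ S.erase α, (Polynomial.X - Polynomial.C γ)).eval β)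
      = 0 := by
    refine Finset.sum_eq_zero fun β hβ => ?_
    rw [Polynomial.eval_prod, Finset.prod_eq_zero hβ]
    · ring
    · simp
  rw [h2, add_zero, Polynomial.eval_prod] at this
  have h3 : (∏ γ ∈ S.erase α, (Polynomial.X - Polynomial.C γ).eval α) ≠ 0 := by
    rw [Finset.prod_ne_zero_iff]
    intro γ hγ
    simp only [Polynomial.eval_sub, Polynomial.eval_X, Polynomial.eval_C]
    rw [sub_ne_zero]
    exact (Finset.ne_of_mem_erase hγ).symm
  have h4 : α * (∏ γ ∈ S.erase α, (Polynomial.X - Polynomial.C γ).eval α) ≠ 0 := mul_ne_zero h0 h3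
  exact (mul_eq_zero.1 this).resolve_right h4

namespace GradedFrob

variable (M : GradedFrob E)

/-- the alternating sum of the multiplicities of the eigenvalue `α` -/
noncomputable def mult (α : E) : ℤ :=
  ∑ᶠ i : ℤ, ((Int.negOnePow i : ℤˣ) : ℤ) * Module.finrank E (End.maxGenEigenspace (M.Fr i) α)

/-- the alternating sum of the dimensions of the parts of weight `w` -/
noncomputable def chi (ι : E →+* ℂ) (q : ℕ) (w : ℤ) : ℤ :=
  ∑ᶠ i : ℤ, ((Int.negOnePow i : ℤˣ) : ℤ) * Module.finrank E (M.gr ι q w i)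

theorem finsum_eq {R : Type} [AddCommMonoid R] (f : ℤ → R)
    (hf : ∀ i, ¬ Nontrivial (M.H i) → f i = 0) : ∑ᶠ i, f i = ∑ i ∈ M.bdd.toFinset, f i := by
  apply finsum_eq_sum_of_support_subset
  intro i hi
  simp only [Set.Finite.coe_toFinset, Set.mem_ofPred_eq]
  by_contra h
  exact hi (hf i h)

theorem finrank_of_not_nontrivial {i : ℤ} (h : ¬ Nontrivial (M.H i)) (W : Submodule E (M.H i)) :
    Module.finrank E W = 0 := by
  have : Subsingleton (M.H i) := not_nontrivial_iff_subsingleton.1 h
  exact Module.finrank_zero_of_subsingleton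

open Classical in
/-- the eigenvalues -/
noncomputable def eigs : Finset E :=
  M.bdd.toFinset.biUnion fun i =>
    (WellFoundedGT.finite_ne_bot_of_iSupIndep
      (End.independent_maxGenEigenspace (M.Fr i))).toFinset

theorem mem_eigs {i : ℤ} {α : E} (h : End.maxGenEigenspace (M.Fr i) α ≠ ⊥) : α ∈ M.eigs := by
  classical
  unfold eigs
  rw [Finset.mem_biUnion]
  refine ⟨i, ?_, by simpa using h⟩
  simp only [Set.Finite.mem_toFinset, Set.mem_ofPred_eq]
  by_contra hn
  have : Subsingleton (M.H i) := not_nontrivial_iff_subsingleton.1 hn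
  exact h (Subsingleton.elim _ _)

theorem mult_eq (α : E) : M.mult α = ∑ i ∈ M.bdd.toFinset,
    ((Int.negOnePow i : ℤˣ) : ℤ) * Module.finrank E (End.maxGenEigenspace (M.Fr i) α) := by
  unfold mult
  rw [M.finsum_eq]
  intro i hi
  rw [M.finrank_of_not_nontrivial hi]; simp

theorem chi_eq_sum (ι : E →+* ℂ) (q : ℕ) (w : ℤ) : M.chi ι q w = ∑ i ∈ M.bdd.toFinset,
    ((Int.negOnePow i : ℤˣ) : ℤ) * Module.finrank E (M.gr ι q w i) := by
  unfold chi
  rw [M.finsum_eq]
  intro i hi
  rw [M.finrank_of_not_nontrivial hi]; simp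

theorem mult_eq_zero {α : E} (h : α ∉ M.eigs) : M.mult α = 0 := by
  rw [mult_eq]
  refine Finset.sum_eq_zero fun i _ => ?_
  have : End.maxGenEigenspace (M.Fr i) α = ⊥ := by
    by_contra h'
    exact h (M.mem_eigs h')
  rw [this]; simp

theorem trace_sum [IsAlgClosed E] (m : ℕ) :
    ∑ᶠ i : ℤ, (((Int.negOnePow i : ℤˣ) : ℤ) : E) * LinearMap.trace E (M.H i) (M.Fr i ^ m) =
      ∑ α ∈ M.eigs, (M.mult α : E) * α ^ m := by
  rw [M.finsum_eq]
  · have h1 : ∀ i ∈ M.bdd.toFinset,
        (((Int.negOnePow i : ℤˣ) : ℤ) : E) * LinearMap.trace E (M.H i) (M.Fr i ^ m) =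
        ∑ α ∈ M.eigs, (((Int.negOnePow i : ℤˣ) : ℤ) : E) *
          ((Module.finrank E (End.maxGenEigenspace (M.Fr i) α) : E) * α ^ m) := by
      intro i _
      rw [trace_pow (M.Fr i) m M.eigs (fun α h => M.mem_eigs h), Finset.mul_sum]
    rw [Finset.sum_congr rfl h1, Finset.sum_comm]
    refine Finset.sum_congr rfl fun α _ => ?_
    rw [mult_eq, Int.cast_sum, Finset.sum_mul]
    refine Finset.sum_congr rfl fun i _ => ?_
    push_cast
    ring
  · intro i hi
    have : Subsingleton (M.H i) := not_nontrivial_iff_subsingleton.1 hi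
    have h0 : M.Fr i ^ m = 0 := Subsingleton.elim _ _
    rw [h0, map_zero, mul_zero]

open Classical in
theorem finrank_gr (ι : E →+* ℂ) (q : ℕ) (w : ℤ) (i : ℤ) :
    Module.finrank E (M.gr ι q w i) =
      ∑ α ∈ M.eigs.filter (fun α => ‖ι α‖ = (q : ℝ) ^ ((w : ℝ) / 2)),
        Module.finrank E (End.maxGenEigenspace (M.Fr i) α) := by
  have hc : CharZero E := RingHom.charZero ι
  set s := M.eigs.filter (fun α => ‖ι α‖ = (q : ℝ) ^ ((w : ℝ) / 2)) with hs
  have hp : M.gr ι q w i = ⨆ α ∈ s, End.maxGenEigenspace (M.Fr i) α := by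
    unfold gr
    apply le_antisymm
    · refine iSup_le fun α => iSup_le fun hα => ?_
      by_cases h : α ∈ M.eigs
      · exact le_iSup₂_of_le α (by rw [hs, Finset.mem_filter]; exact ⟨h, hα⟩) le_rfl
      · have : End.maxGenEigenspace (M.Fr i) α = ⊥ := by
          by_contra h'
          exact h (M.mem_eigs h')
        rw [this]; exact bot_le
    · refine iSup_le fun α => iSup_le fun hα => ?_
      rw [hs, Finset.mem_filter] at hα
      exact le_iSup₂_of_le α hα.2 le_rfl
  have hind : iSupIndep fun α : s => End.maxGenEigenspace (M.Fr i) α.1 :=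
    (End.independent_maxGenEigenspace (M.Fr i)).comp Subtype.val_injective
  have h1 := LinearMap.trace_eq_sum_trace_restrict_of_eq_biSup (R := E) (M := M.H i)
    (N := fun α => End.maxGenEigenspace (M.Fr i) α) s hind (f := 1)
    (fun α x hx => hx) (M.gr ι q w i) hp (fun x hx => hx)
  have h2 : ∀ (W : Submodule E (M.H i)) (h : Set.MapsTo (1 : End E (M.H i)) W W),
      LinearMap.trace E W ((1 : End E (M.H i)).restrict h) = (Module.finrank E W : E) := by
    intro W h
    have : (1 : End E (M.H i)).restrict h = 1 := by ext x; rfl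
    rw [this, LinearMap.trace_one]
  rw [h2] at h1
  have h3 : (Module.finrank E (M.gr ι q w i) : E) =
      ((∑ α ∈ s, Module.finrank E (End.maxGenEigenspace (M.Fr i) α) : ℕ) : E) := by
    rw [h1, Nat.cast_sum]
    exact Finset.sum_congr rfl fun α _ => h2 _ _
  exact_mod_cast h3

open Classical in
theorem chi_eq (ι : E →+* ℂ) (q : ℕ) (w : ℤ) :
    M.chi ι q w = ∑ α ∈ M.eigs.filter (fun α => ‖ι α‖ = (q : ℝ) ^ ((w : ℝ) / 2)), M.mult α := by
  rw [chi_eq_sum]
  have : ∀ i ∈ M.bdd.toFinset, ((Int.negOnePow i : ℤˣ) : ℤ) * (Module.finrank E (M.gr ι q w i) : ℤ)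
      = ∑ α ∈ M.eigs.filter (fun α => ‖ι α‖ = (q : ℝ) ^ ((w : ℝ) / 2)),
        ((Int.negOnePow i : ℤˣ) : ℤ) * (Module.finrank E (End.maxGenEigenspace (M.Fr i) α) : ℤ) := by
    intro i _
    rw [finrank_gr, Nat.cast_sum, Finset.mul_sum]
  rw [Finset.sum_congr rfl this, Finset.sum_comm]
  exact Finset.sum_congr rfl fun α _ => (M.mult_eq α).symm

/-- the Lefschetz symmetry gives the symmetry of the Euler characteristics -/
theorem chi_symm (ι : E →+* ℂ) (q : ℕ) (d : ℤ) (h : M.LefschetzSymmetric ι q d) (k : ℕ) :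
    M.chi ι q (d - 2 * k) = M.chi ι q (d + 2 * k) := by
  unfold chi
  have h1 : ∀ i : ℤ, ((Int.negOnePow i : ℤˣ) : ℤ) * (Module.finrank E (M.gr ι q (d - 2 * k) i) : ℤ)
      = ((Int.negOnePow (i + 2 * k) : ℤˣ) : ℤ) *
        (Module.finrank E (M.gr ι q (d + 2 * k) (i + 2 * k)) : ℤ) := by
    intro i
    obtain ⟨e⟩ := h i k
    rw [e.finrank_eq, Int.negOnePow_add, Int.negOnePow_even (2 * (k : ℤ)) ⟨k, by ring⟩, mul_one]
  rw [finsum_congr h1]
  exact finsum_comp_equiv (Equiv.addRight (2 * (k : ℤ)))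
    (f := fun i => ((Int.negOnePow i : ℤˣ) : ℤ) * (Module.finrank E (M.gr ι q (d + 2 * k) i) : ℤ))

end GradedFrob

end Pool.Agent.CurLef
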