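import Mathlib
import Pool.Agent.CurLef.Trace
import Pool.Agent.CurLef.SL2

/-! The failure of the Lefschetz symmetry. -/

namespace Pool.Agent.CurLef

open Module

namespace GradedFrob

variable {E : Type} [Field E] [IsAlgClosed E] (M : GradedFrob E)

/-- the trace formula for a variety with polynomial point count -/
theorem sum_mult {F : Type} [Field F] [Finite F] {X : ∀ (K : Type) [Field K], Type}
    (h : M.TraceFormula F X) (P : Polynomial ℤ)
    (hP : ∀ (K : Type) [Field K] [Finite K], (Nat.card (X K) : ℤ) = P.eval (Nat.card K : ℤ))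
    (m : ℕ) (hm : 1 ≤ m) :
    ∑ α ∈ M.eigs, (M.mult α : E) * α ^ m =
      ∑ e ∈ P.support, (P.coeff e : E) * ((Nat.card F : E) ^ e) ^ m := by
  obtain ⟨p, hp⟩ := CharP.exists F
  have hpr : Fact p.Prime := ⟨CharP.char_is_prime F p⟩
  have : NeZero m := ⟨by omega⟩
  let K := FiniteField.Extension F p m
  have h1 := h K
  have hc : Nat.card K = Nat.card F ^ m := FiniteField.natCard_extension F p m
  have hfr : Module.finrank F K = m := by
    have h2 := Module.natCard_eq_pow_finrank (K := F) (V := K)
    rw [hc] at h2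
    exact (Nat.pow_right_injective (Finite.one_lt_card) h2).symm
  rw [hfr, trace_sum] at h1
  rw [← h1]
  have h3 := hP K
  have h4 : (Nat.card (X K) : E) = ((P.eval (Nat.card K : ℤ) : ℤ) : E) := by
    rw [← h3]; push_cast; rfl
  rw [h4, Polynomial.eval_eq_sum, Polynomial.sum_def]
  push_cast
  refine Finset.sum_congr rfl fun e _ => ?_
  rw [hc]
  push_cast
  ring

/-- the multiplicities predicted by the point count -/
noncomputable def target (Q : ℕ) (P : Polynomial ℤ) (α : E) : ℤ := by
  classical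
  exact ∑ e ∈ P.support, if α = (Q : E) ^ e then P.coeff e else 0

theorem mult_eq_target {F : Type} [Field F] [Finite F] {X : ∀ (K : Type) [Field K], Type}
    [CharZero E]
    (h : M.TraceFormula F X) (P : Polynomial ℤ)
    (hP : ∀ (K : Type) [Field K] [Finite K], (Nat.card (X K) : ℤ) = P.eval (Nat.card K : ℤ))
    (α : E) (h0 : α ≠ 0) : M.mult α = target (Nat.card F) P α := by
  classical
  set Q := Nat.card F
  set S : Finset E := insert α (M.eigs ∪ P.support.image fun e => (Q : E) ^ e) with hS
  have key := coeff_eq_zero_of_power_sums S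
    (fun β => (M.mult β : E) - (target Q P β : E)) ?_ α (by rw [hS]; simp) h0
  · have : (M.mult α : E) = (target Q P α : E) := sub_eq_zero.1 key
    exact_mod_cast this
  · intro m hm
    have h1 : ∑ β ∈ S, (M.mult β : E) * β ^ m = ∑ β ∈ M.eigs, (M.mult β : E) * β ^ m := by
      symm
      apply Finset.sum_subset
      · intro β hβ
        rw [hS, Finset.mem_insert, Finset.mem_union]
        exact Or.inr (Or.inl hβ)
      · intro β _ hβ
        rw [M.mult_eq_zero hβ]; simp
    have h2 : ∑ β ∈ S, (target Q P β : E) * β ^ m =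
        ∑ e ∈ P.support, (P.coeff e : E) * ((Q : E) ^ e) ^ m := by
      unfold target
      push_cast
      simp only [Finset.sum_mul, ite_mul, zero_mul]
      rw [Finset.sum_comm]
      refine Finset.sum_congr rfl fun e he => ?_
      rw [Finset.sum_eq_single ((Q : E) ^ e)]
      · simp
      · intro β _ hβ
        rw [if_neg hβ]
      · intro hn
        exfalso
        apply hn
        rw [hS, Finset.mem_insert, Finset.mem_union, Finset.mem_image]
        exact Or.inr (Or.inr ⟨e, he, rfl⟩)
    simp only [sub_mul]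
    rw [Finset.sum_sub_distrib, h1, h2, M.sum_mult h P hP m hm, sub_self]

/-- the Euler characteristic of the part of weight `2 e` is the coefficient of the point count -/
theorem chi_eq_coeff {F : Type} [Field F] [Finite F] {X : ∀ (K : Type) [Field K], Type}
    (ι : E →+* ℂ) (h : M.TraceFormula F X) (P : Polynomial ℤ)
    (hP : ∀ (K : Type) [Field K] [Finite K], (Nat.card (X K) : ℤ) = P.eval (Nat.card K : ℤ))
    (e : ℤ) : M.chi ι (Nat.card F) (2 * e) = if 0 ≤ e then P.coeff e.toNat else 0 := by
  classical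
  have hc : CharZero E := RingHom.charZero ι
  set Q := Nat.card F with hQ
  have hQ1 : 1 < Q := Finite.one_lt_card
  have hQ0 : (0 : ℝ) < Q := by positivity
  have hw : ((2 * e : ℤ) : ℝ) / 2 = (e : ℝ) := by push_cast; ring
  rw [chi_eq, hw]
  set S : Finset E := M.eigs ∪ P.support.image fun e => (Q : E) ^ e with hS
  have h1 : ∑ α ∈ M.eigs.filter (fun α => ‖ι α‖ = (Q : ℝ) ^ (e : ℝ)), M.mult α =
      ∑ α ∈ S.filter (fun α => ‖ι α‖ = (Q : ℝ) ^ (e : ℝ)), target Q P α := by
    have h2 : ∑ α ∈ M.eigs.filter (fun α => ‖ι α‖ = (Q : ℝ) ^ (e : ℝ)), M.mult α =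
        ∑ α ∈ S.filter (fun α => ‖ι α‖ = (Q : ℝ) ^ (e : ℝ)), M.mult α := by
      apply Finset.sum_subset
      · apply Finset.filter_subset_filter
        exact Finset.subset_union_left
      · intro α h3 h4
        apply M.mult_eq_zero
        intro h5
        rw [Finset.mem_filter] at h3 h4
        exact h4 ⟨h5, h3.2⟩
    rw [h2]
    refine Finset.sum_congr rfl fun α hα => ?_
    rw [Finset.mem_filter] at hα
    apply M.mult_eq_target h P hP
    rintro rfl
    rw [map_zero, norm_zero] at hα
    exact (Real.rpow_pos_of_pos hQ0 _).ne hα.2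
  rw [h1]
  unfold target
  rw [Finset.sum_comm]
  have h3 : ∀ f ∈ P.support, ∑ α ∈ S.filter (fun α => ‖ι α‖ = (Q : ℝ) ^ (e : ℝ)),
      (if α = (Q : E) ^ f then P.coeff f else 0) = if (f : ℤ) = e then P.coeff f else 0 := by
    intro f hf
    rw [Finset.sum_ite_eq']
    have hmem : (Q : E) ^ f ∈ S := by
      rw [hS, Finset.mem_union, Finset.mem_image]
      exact Or.inr ⟨f, hf, rfl⟩
    have hnorm : ‖ι ((Q : E) ^ f)‖ = (Q : ℝ) ^ (f : ℝ) := by
      rw [map_pow, map_natCast, norm_pow, Complex.norm_natCast, Real.rpow_natCast]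
    have hiff : ‖ι ((Q : E) ^ f)‖ = (Q : ℝ) ^ (e : ℝ) ↔ (f : ℤ) = e := by
      rw [hnorm]
      constructor
      · intro h
        have := (Real.rpow_right_inj hQ0 (by exact_mod_cast hQ1.ne')).1 h
        exact_mod_cast this
      · intro h
        rw [← h]; push_cast; rfl
    by_cases hfe : (f : ℤ) = e
    · rw [if_pos (Finset.mem_filter.2 ⟨hmem, hiff.2 hfe⟩), if_pos hfe]
    · have hnot : (Q : E) ^ f ∉ Finset.filter (fun α => ‖ι α‖ = (Q : ℝ) ^ (e : ℝ)) S :=
        fun h => hfe (hiff.1 (Finset.mem_filter.1 h).2)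
      rw [if_neg hnot, if_neg hfe]
  rw [Finset.sum_congr rfl h3]
  by_cases he : 0 ≤ e
  · rw [if_pos he]
    obtain ⟨k, rfl⟩ := Int.eq_ofNat_of_zero_le he
    simp only [Nat.cast_inj, Int.toNat_natCast]
    rw [Finset.sum_ite_eq']
    split_ifs with h4
    · rfl
    · exact (Polynomial.notMem_support_iff.1 h4).symm
  · rw [if_neg he]
    refine Finset.sum_eq_zero fun f _ => ?_
    rw [if_neg]
    intro h; omega

/-- no Lefschetz symmetry with even centre if the top and bottom coefficients of the point count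
are not compatible -/
theorem not_symmetric {F : Type} [Field F] [Finite F] {X : ∀ (K : Type) [Field K], Type}
    (ι : E →+* ℂ) (h : M.TraceFormula F X) (P : Polynomial ℤ)
    (hP : ∀ (K : Type) [Field K] [Finite K], (Nat.card (X K) : ℤ) = P.eval (Nat.card K : ℤ))
    (n : ℕ) (htop : ∀ e, n + 2 < e → P.coeff e = 0) (h0 : P.coeff 0 = 0)
    (hne : P.coeff (n + 2) ≠ 0) (h1 : P.coeff 1 = (-1) ^ n * P.coeff (n + 2))
    (d : ℤ) (hd : Even d) : ¬ M.LefschetzSymmetric ι (Nat.card F) d := by
  intro hL
  obtain ⟨c, hc⟩ := hd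
  have hc2 : d = 2 * c := by omega
  set a : ℤ → ℤ := fun e => if 0 ≤ e then P.coeff e.toNat else 0 with ha
  have ha' : ∀ e, M.chi ι (Nat.card F) (2 * e) = a e := fun e => M.chi_eq_coeff ι h P hP e
  have hsym : ∀ e, a (2 * c - e) = a e := by
    have h2 : ∀ k : ℕ, a (c - k) = a (c + k) := by
      intro k
      have := M.chi_symm ι (Nat.card F) d hL k
      rw [hc2, ← mul_sub, ← mul_add, ha', ha'] at this
      exact this
    intro e
    rcases le_total e c with hec | hec
    · obtain ⟨k, hk⟩ := Int.eq_ofNat_of_zero_le (sub_nonneg.2 hec)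
      have := h2 k
      rw [show (c - (k : ℤ)) = e by omega, show (c + (k : ℤ)) = 2 * c - e by omega] at this
      exact this.symm
    · obtain ⟨k, hk⟩ := Int.eq_ofNat_of_zero_le (sub_nonneg.2 hec)
      have := h2 k
      rw [show (c - (k : ℤ)) = 2 * c - e by omega, show (c + (k : ℤ)) = e by omega] at this
      exact this
  have ha_top : a ((n : ℤ) + 2) = P.coeff (n + 2) := by
    rw [ha]; simp only
    rw [if_pos (by omega)]
    congr 1
  have ha_one : a 1 = P.coeff 1 := by
    rw [ha]; simp
  have ha_out : ∀ e : ℤ, (e < 1 ∨ (n : ℤ) + 2 < e) → a e = 0 := by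
    intro e he
    rw [ha]; simp only
    rcases he with he | he
    · by_cases h4 : 0 ≤ e
      · have : e = 0 := by omega
        rw [this]; simpa using h0
      · rw [if_neg h4]
    · rw [if_pos (by omega)]
      exact htop _ (by omega)
  have e1 := hsym ((n : ℤ) + 2)
  have e2 := hsym 1
  have h5 : (1 : ℤ) ≤ 2 * c - ((n : ℤ) + 2) := by
    by_contra hlt
    rw [ha_out _ (Or.inl (by omega)), ha_top] at e1
    exact hne e1.symm
  have h1ne : P.coeff 1 ≠ 0 := by
    rw [h1]
    exact mul_ne_zero (pow_ne_zero _ (by norm_num)) hne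
  have h6 : 2 * c - 1 ≤ (n : ℤ) + 2 := by
    by_contra hlt
    rw [ha_out _ (Or.inr (by omega)), ha_one] at e2
    exact h1ne e2.symm
  have h7 : 2 * c = (n : ℤ) + 3 := by omega
  have h8 : a 1 = a ((n : ℤ) + 2) := by
    rw [← e1, h7]; congr 1; ring
  rw [ha_one, ha_top, h1] at h8
  have hodd : Odd n := by
    have : Odd (n : ℤ) := ⟨c - 2, by omega⟩
    exact_mod_cast this
  rw [hodd.neg_one_pow] at h8
  apply hne
  linarith

end GradedFrob

end Pool.Agent.CurLef
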